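import Pool.Agent.T9h36.N1.Spec
import Pool.Agent.T9h22.NK.N1

/-!
# Project NK, slope 1, piece (N1), in the form of the Spec
-/

set_option autoImplicit false

open Set
open scoped RealInnerProductSpace

namespace Pool.Agent.T9h22.N1

open Pool.Agent.T9h98.DC Pool.Agent.T9h44.NK Pool.Agent.T9h36.N1

theorem n1 (hSH : S_SH) : S_N1 := by
  intro d P H v n w n' ι ι' k m hP _ hv hw hne hFew hnot
  obtain ⟨v1, v2, v3, v4, v5⟩ := hv
  obtain ⟨w1, w2, w3, w4, w5⟩ := hw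
  rw [Nat.add_comm k m] at hFew
  exact Pool.Agent.T9h22.NK.n1 hSH d P H v n w n' ι ι' hP v1 v2 v3 v4 v5 w1 w2 w3 w4 w5 hne m k
    hFew hnot

end Pool.Agent.T9h22.N1
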